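import Pool.Agent.helper35.SZ.Defs

/-!
# The curled diagram: a small curl is added near every half-edge
-/

namespace Pool.Agent.helper35.SZ

open scoped Classical
open Finset

noncomputable section

/-- Old half-edges in the curled diagram. -/
def iotaAux (D : Diagram) : D.H → (((D.X ⊕ D.H) × Fin 4) ⊕ (D.Y × Fin 2))
  | Sum.inl (x, j) => Sum.inl (Sum.inl x, j)
  | Sum.inr (y, j) => Sum.inr (y, j)

/-- The involution of the curled diagram. -/
def curlTau (D : Diagram) :
    (((D.X ⊕ D.H) × Fin 4) ⊕ (D.Y × Fin 2)) → (((D.X ⊕ D.H) × Fin 4) ⊕ (D.Y × Fin 2))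
  | Sum.inl (Sum.inl x, j) => Sum.inl (Sum.inr (Sum.inl (x, j)), 0)
  | Sum.inr (y, j) => Sum.inl (Sum.inr (Sum.inr (y, j)), 0)
  | Sum.inl (Sum.inr h, j) => ![iotaAux D h, Sum.inl (Sum.inr (D.tau h), 1),
      Sum.inl (Sum.inr h, 3), Sum.inl (Sum.inr h, 2)] j

/-- The curled diagram. -/
def curl (D : Diagram) : Diagram where
  X := D.X ⊕ D.H
  Y := D.Y
  tau := curlTau D
  tau_invol := by
    rintro (⟨x | h, j⟩ | ⟨y, j⟩)
    · rfl
    · fin_cases j
      · rcases h with ⟨x, j⟩ | ⟨y, j⟩ <;> rfl
      · show Sum.inl (Sum.inr (D.tau (D.tau h)), (1 : Fin 4)) = _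
        rw [D.tau_invol]
        rfl
      · rfl
      · rfl
    · rfl
  tau_ne := by
    rintro (⟨x | h, j⟩ | ⟨y, j⟩)
    · intro e
      simp [curlTau] at e
    · fin_cases j
      · rcases h with ⟨x, j⟩ | ⟨y, j⟩
        · intro e
          simp [curlTau, iotaAux] at e
        · intro e
          simp [curlTau, iotaAux] at e
      · intro e
        have := D.tau_ne h
        simp [curlTau] at e
        exact this e
      · intro e
        simp [curlTau] at e
      · intro e
        simp [curlTau] at e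
    · intro e
      simp [curlTau] at e

variable (D : Diagram)

/-- Old half-edges in the curled diagram. -/
def iota (h : D.H) : (curl D).H := iotaAux D h

/-- Half-edges of the curl crossing near `h`. -/
def kap (h : D.H) (j : Fin 4) : (curl D).H := Sum.inl (Sum.inr h, j)

/-- The resolution of the curled diagram given by a resolution of the diagram and a set of
`1`-resolved curls. -/
def st (A : Finset D.X) (N : Finset D.H) : Finset (curl D).X := A.disjSum N

/-- Lift of a generator; the small circles of the `0`-resolved curls are labelled `x`. -/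
def lift (N : Finset D.H) (g : D.Gen) : (curl D).Gen :=
  ⟨st D g.1 N, univ.filter fun c =>
    (∃ h, D.circ g.1 h ∈ g.2 ∧ c = (curl D).circ (st D g.1 N) (iota D h)) ∨
    (∃ h, h ∉ N ∧ c = (curl D).circ (st D g.1 N) (kap D h 2))⟩

/-- The decoration of the curled diagram: the arcs at the curls go from the small circle. -/
def curlT (t : D.X → Bool) : (curl D).X → Bool := Sum.elim t (fun _ => false)

variable (cv : Conv) (t : D.X → Bool)

/-- Configurations of type E (all arcs towards the centre) together with a set `W` of curls which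
are all on the central circle. -/
def Etw (W : Finset D.H) (g g' : D.Gen) : Prop :=
  g.1 ⊆ g'.1 ∧ D.gr g' + 2 = D.gr g + ((g'.1 \ g.1).card : ℤ) ∧
  ∃ c : D.Circ g.1, ∃ c' : D.Circ g'.1, c ∉ g.2 ∧ c' ∈ g'.2 ∧
    (∀ h ∈ W, D.circ g.1 h = c ∧ D.circ g'.1 h = c') ∧
    (∀ x ∈ g'.1 \ g.1,
      (Leaf cv D t true (g'.1 \ g.1) g.1 c x ∧ tail cv D t g'.1 x = c' ∧
        head cv D t g'.1 x = c') ∨
      (Leaf cv D t true (g'.1 \ g.1) g'.1 c' x ∧ tail cv D t g.1 x = c ∧
        head cv D t g.1 x = c)) ∧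
    (∀ z, Active D (g'.1 \ g.1) g.1 z → z ≠ c → z ∈ g.2) ∧
    (∀ z, Active D (g'.1 \ g.1) g'.1 z → z ≠ c' → z ∉ g'.2) ∧
    (∀ h, ¬ Active D (g'.1 \ g.1) g.1 (D.circ g.1 h) → D.circ g.1 h ≠ c →
      (D.circ g.1 h ∈ g.2 ↔ D.circ g'.1 h ∈ g'.2))

/-- Twisted coefficients. -/
def tw (W : Finset D.H) (g g' : D.Gen) : ZMod 2 :=
  if W = ∅ then coef cv D t g g' else ind (Etw D cv t W g g')

/-- Twisted differential, with coefficients in a polynomial ring. -/
def TT (g g' : D.Gen) : MvPolynomial D.H (ZMod 2) :=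
  ∑ W : Finset D.H, MvPolynomial.C (tw D cv t W g g') *
    ∏ h ∈ W, (MvPolynomial.X h - 1)

/-- The degree which is lowered by two by the differential. -/
def dg (g : D.Gen) : ℤ := D.gr g - (g.1.card : ℤ)

end

end Pool.Agent.helper35.SZ
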