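import Mathlib

/-!
# Szabo's geometric spectral sequence: definitions

Combinatorial link diagrams on the sphere, cube of resolutions, Szabo's maps on the faces of the
cube (types A, B, C, D, E), the bigraded pages of a filtered complex.
-/

namespace Pool.Agent.helper35.SZ

open scoped Classical
open Finset

noncomputable section

/-- A link diagram on an oriented surface, given by its crossings `X`, by some marked points `Y`
on edges (two-valent vertices; they make it possible to have crossingless components), and by the
fixed point free involution `tau` which joins the half-edges in pairs (edges).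
The half-edges at a crossing `x` are `Sum.inl (x, 0), ..., Sum.inl (x, 3)` in counterclockwise
order, and `0`, `2` belong to the under-strand. The half-edges at a marked point `y` are
`Sum.inr (y, 0)` and `Sum.inr (y, 1)`. -/
structure Diagram where
  X : Type
  Y : Type
  [finX : Fintype X]
  [finY : Fintype Y]
  tau : ((X × Fin 4) ⊕ (Y × Fin 2)) → ((X × Fin 4) ⊕ (Y × Fin 2))
  tau_invol : ∀ h, tau (tau h) = h
  tau_ne : ∀ h, tau h ≠ h

attribute [instance] Diagram.finX Diagram.finY

namespace Diagram

variable (D : Diagram)

/-- Half-edges. -/
abbrev H : Type := (D.X × Fin 4) ⊕ (D.Y × Fin 2)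

/-- The next half-edge, counterclockwise, at the same vertex. -/
def rot : D.H → D.H
  | Sum.inl (x, j) => Sum.inl (x, j + 1)
  | Sum.inr (y, j) => Sum.inr (y, j + 1)

/-- Faces (regions) of the diagram: orbits of `rot ∘ tau`. -/
def Face : Type := Quot (fun a b : D.H => b = D.rot (D.tau a))

/-- Connected components of the underlying graph. -/
def Comp : Type := Quot (fun a b : D.H => b = D.tau a ∨ b = D.rot a)

/-- The diagram lies on a union of spheres, one for each connected component of the graph
(Euler characteristic `V - E + F = 2 C`, where `V - E = - |X|`). A diagram on one sphere is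
recovered by connected sum, and circles of resolutions do not see the difference. -/
def Planar : Prop :=
  Nat.card D.Face = 2 * Nat.card D.Comp + Fintype.card D.X

/-- How the half-edges at the vertices are joined in the resolution `A`; a crossing in `A` is
`1`-resolved (`1` with `2`, `3` with `0`), the other crossings are `0`-resolved (`0` with `1`,
`2` with `3`). -/
def res (A : Finset D.X) : D.H → D.H
  | Sum.inl (x, j) => Sum.inl (x, if x ∈ A then ![3, 2, 1, 0] j else ![1, 0, 3, 2] j)
  | Sum.inr (y, j) => Sum.inr (y, j + 1)

/-- The circles of the resolution `A`. -/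
def Circ (A : Finset D.X) : Type :=
  Quot (fun a b : D.H => b = D.tau a ∨ b = D.res A a)

/-- The circle of the resolution `A` through the half-edge `h`. -/
def circ (A : Finset D.X) (h : D.H) : D.Circ A := Quot.mk _ h

instance (A : Finset D.X) : Finite (D.Circ A) := Finite.of_surjective (D.circ A) Quot.mk_surjective

instance (A : Finset D.X) : Fintype (D.Circ A) := Fintype.ofFinite _

/-- The generators (monomials): a resolution together with the set of circles labelled `x`;
the other circles are labelled `1`. -/
abbrev Gen : Type := Σ A : Finset D.X, Finset (D.Circ A)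

/-- The grading `gr` of a monomial, `gr 1 = 1`, `gr x = -1`. -/
def gr (g : D.Gen) : ℤ := (Fintype.card (D.Circ g.1) : ℤ) - 2 * (g.2.card : ℤ)

end Diagram

/-- Conventions which are not fixed by the problem. `ccw` says whether the dual arc of an oriented
surgery arc is obtained by a counterclockwise (`true`) or clockwise (`false`) rotation by a right
angle. `par` is the sign convention in types C and D. All results are proved for all
conventions. -/
structure Conv where
  ccw : Bool
  par : Bool

variable (cv : Conv) (D : Diagram) (t : D.X → Bool)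

/-- The end (as a half-edge position `Fin 4`) which represents the tail of the oriented surgery arc
at the crossing `x` (if `x` is `0`-resolved in `A`) or of its dual arc (if `x ∈ A`).
The surgery arc goes from the strand `{0, 1}` to the strand `{2, 3}` if `t x = true` and in the
other direction if `t x = false`. The dual arc is obtained by rotation and joins the strands
`{1, 2}` and `{3, 0}`. -/
def tailPos (A : Finset D.X) (x : D.X) : Fin 4 :=
  (if x ∈ A then (if cv.ccw then 1 else 3) else 0) + (if t x then 0 else 2)

/-- The circle of the resolution `A` at the tail of the surgery arc, or dual arc, at `x`. -/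
def tail (A : Finset D.X) (x : D.X) : D.Circ A := D.circ A (Sum.inl (x, tailPos cv D t A x))

/-- The circle of the resolution `A` at the head of the surgery arc, or dual arc, at `x`. -/
def head (A : Finset D.X) (x : D.X) : D.Circ A := D.circ A (Sum.inl (x, tailPos cv D t A x + 2))

/-- `c` is active in the resolution `A` for the set of crossings `S`. -/
def Active (S A : Finset D.X) (c : D.Circ A) : Prop :=
  ∃ x ∈ S, ∃ j : Fin 4, D.circ A (Sum.inl (x, j)) = c

/-- The labels of the passive circles are preserved. -/
def Passive (g g' : D.Gen) : Prop :=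
  ∀ h : D.H, ¬ Active D (g'.1 \ g.1) g.1 (D.circ g.1 h) →
    (D.circ g.1 h ∈ g.2 ↔ D.circ g'.1 h ∈ g'.2)

/-- `g` has label `1` on all the active circles. -/
def AllOne (S : Finset D.X) (g : D.Gen) : Prop := ∀ c, Active D S g.1 c → c ∉ g.2

/-- `g` has label `x` on all the active circles. -/
def AllX (S : Finset D.X) (g : D.Gen) : Prop := ∀ c, Active D S g.1 c → c ∈ g.2

/-- All the arcs of `S` go, in the resolution `A`, from one circle to another circle
(the same ones for all arcs). -/
def Parallel (S A : Finset D.X) : Prop :=
  ∀ x ∈ S, tail cv D t A x ≠ head cv D t A x ∧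
    ∀ y ∈ S, tail cv D t A x = tail cv D t A y ∧ head cv D t A x = head cv D t A y

/-- All the arcs of `S` have, in the resolution `A`, their ends on one circle. -/
def OneCircle (S A : Finset D.X) : Prop :=
  ∀ x ∈ S, tail cv D t A x = head cv D t A x ∧ ∀ y ∈ S, tail cv D t A x = tail cv D t A y

/-- In the resolution `A` the arcs at `x` and `y` join the same two different circles, and they are
parallel (or antiparallel, according to the convention). -/
def Linked (A : Finset D.X) (x y : D.X) : Prop :=
  tail cv D t A x ≠ head cv D t A x ∧
    (if cv.par then tail cv D t A y = tail cv D t A x ∧ head cv D t A y = head cv D t A x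
      else tail cv D t A y = head cv D t A x ∧ head cv D t A y = tail cv D t A x)

/-- Type A: two starting circles and parallel arcs between them; `1 ⊗ 1` goes to `1 ⊗ ... ⊗ 1`. -/
def TypeA (g g' : D.Gen) : Prop :=
  Parallel cv D t (g'.1 \ g.1) g.1 ∧ AllOne D (g'.1 \ g.1) g ∧ AllOne D (g'.1 \ g.1) g'

/-- Type B, the dual of type A: two ending circles and parallel dual arcs between them;
`x ⊗ ... ⊗ x` goes to `x ⊗ x`. -/
def TypeB (g g' : D.Gen) : Prop :=
  Parallel cv D t (g'.1 \ g.1) g'.1 ∧ AllX D (g'.1 \ g.1) g ∧ AllX D (g'.1 \ g.1) g'

/-- Type C: one starting circle; the arcs form two nonempty families (one on each side) such that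
any two arcs of different families are interlaced, in the right sense: after surgery along `x`,
the dual arc of `x` and the arc at `y` are parallel. `1` goes to `1 ⊗ ... ⊗ 1`. -/
def TypeC (g g' : D.Gen) : Prop :=
  OneCircle cv D t (g'.1 \ g.1) g.1 ∧
    (∃ f : D.X → Bool, (∃ x ∈ g'.1 \ g.1, f x = true) ∧ (∃ y ∈ g'.1 \ g.1, f y = false) ∧
      ∀ x ∈ g'.1 \ g.1, ∀ y ∈ g'.1 \ g.1, f x = true → f y = false →
        Linked cv D t (insert x g.1) x y) ∧
    AllOne D (g'.1 \ g.1) g ∧ AllOne D (g'.1 \ g.1) g'

/-- Type D, the dual of type C: one ending circle; `x ⊗ ... ⊗ x` goes to `x`. -/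
def TypeD (g g' : D.Gen) : Prop :=
  OneCircle cv D t (g'.1 \ g.1) g'.1 ∧
    (∃ f : D.X → Bool, (∃ x ∈ g'.1 \ g.1, f x = true) ∧ (∃ y ∈ g'.1 \ g.1, f y = false) ∧
      ∀ x ∈ g'.1 \ g.1, ∀ y ∈ g'.1 \ g.1, f x = true → f y = false →
        Linked cv D t (g'.1.erase x) x y) ∧
    AllX D (g'.1 \ g.1) g ∧ AllX D (g'.1 \ g.1) g'

/-- The end of the (dual) arc which has to be on the central circle: the head if `b = true`,
the tail if `b = false`. -/
def near (b : Bool) (A : Finset D.X) (x : D.X) : D.Circ A :=
  if b then head cv D t A x else tail cv D t A x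

/-- The other end. -/
def far (b : Bool) (A : Finset D.X) (x : D.X) : D.Circ A :=
  if b then tail cv D t A x else head cv D t A x

/-- The arc at `x` joins the central circle `c` with a circle which meets no other arc of `S`, and
its orientation agrees with `b`. -/
def Leaf (b : Bool) (S A : Finset D.X) (c : D.Circ A) (x : D.X) : Prop :=
  near cv D t b A x = c ∧ far cv D t b A x ≠ c ∧
    ∀ y ∈ S, y ≠ x → tail cv D t A y ≠ far cv D t b A x ∧ head cv D t A y ≠ far cv D t b A x

/-- Type E: there is a central starting circle `c` and a central ending circle `c'`; every arc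
either joins `c` with a starting circle of degree one, or its dual arc joins `c'` with an ending
circle of degree one; the arcs of the first kind and the dual arcs of the second kind are all
oriented towards the central circles (`b = true`), or all away from them (`b = false`).
`1 ⊗ x ⊗ ... ⊗ x` goes to `x ⊗ 1 ⊗ ... ⊗ 1` (central circles first). -/
def TypeE (b : Bool) (g g' : D.Gen) : Prop :=
  ∃ c : D.Circ g.1, ∃ c' : D.Circ g'.1, c ∉ g.2 ∧ c' ∈ g'.2 ∧
    (∀ x ∈ g'.1 \ g.1,
      (Leaf cv D t b (g'.1 \ g.1) g.1 c x ∧ tail cv D t g'.1 x = c' ∧ head cv D t g'.1 x = c') ∨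
      (Leaf cv D t b (g'.1 \ g.1) g'.1 c' x ∧ tail cv D t g.1 x = c ∧ head cv D t g.1 x = c)) ∧
    (∀ z, Active D (g'.1 \ g.1) g.1 z → z ≠ c → z ∈ g.2) ∧
    (∀ z, Active D (g'.1 \ g.1) g'.1 z → z ≠ c' → z ∉ g'.2)

/-- Indicator of a proposition with values in `F_2`. -/
def ind (p : Prop) : ZMod 2 := if p then 1 else 0

/-- The coefficient of `g'` in `d(g)`. The map attached to a `k`-dimensional face of the cube
changes `gr` by `k - 2`; this is automatic for planar diagrams and is included for convenience. -/
def coef (g g' : D.Gen) : ZMod 2 :=
  if g.1 ⊂ g'.1 ∧ Passive D g g' ∧ D.gr g' + 2 = D.gr g + ((g'.1 \ g.1).card : ℤ) then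
    ind (TypeA cv D t g g') + ind (TypeB cv D t g g') + ind (TypeC cv D t g g') +
      ind (TypeD cv D t g g') + ind (TypeE cv D t true g g' ∨ TypeE cv D t false g g')
  else 0

/-- The chain group: functions on the set of generators. -/
abbrev Chain : Type := D.Gen → ZMod 2

/-- Szabo's total differential `d(t)`, sum of all `d^k(t)`. -/
def diff : Chain D →ₗ[ZMod 2] Chain D where
  toFun v g' := ∑ g, v g * coef cv D t g g'
  map_add' v w := by
    funext g'
    simp only [Pi.add_apply, add_mul, Finset.sum_add_distrib]
  map_smul' c v := by
    funext g'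
    simp only [Pi.smul_apply, smul_eq_mul, mul_assoc, Finset.mul_sum, RingHom.id_apply]

/-- Szabo's theorem: `d(t)` squares to zero, for every planar diagram and every decoration. -/
def SzaboTheorem : Prop :=
  ∀ (D : Diagram), D.Planar → ∀ t : D.X → Bool, diff cv D t ∘ₗ diff cv D t = 0

/-- An orientation of the link: for every half-edge, whether it is directed towards its vertex. -/
structure Orientation where
  inward : D.H → Bool
  tau_inward : ∀ h, inward (D.tau h) = !inward h
  cross : ∀ x j, inward (Sum.inl (x, j + 2)) = !inward (Sum.inl (x, j))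
  mark : ∀ y j, inward (Sum.inr (y, j + 1)) = !inward (Sum.inr (y, j))

namespace Orientation

variable {D} (o : Orientation D)

/-- Number of negative crossings. (The under-strand is `{0, 2}`, so the crossing is positive if and
only if `0` and `3` are both inward or both outward.) -/
def nNeg : ℕ := (univ.filter fun x : D.X =>
  o.inward (Sum.inl (x, 0)) ≠ o.inward (Sum.inl (x, 3))).card

/-- Number of positive crossings. -/
def nPos : ℕ := (univ.filter fun x : D.X =>
  o.inward (Sum.inl (x, 0)) = o.inward (Sum.inl (x, 3))).card

/-- Homological grading. -/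
def hDeg (g : D.Gen) : ℤ := (g.1.card : ℤ) - o.nNeg

/-- Quantum grading. -/
def qDeg (g : D.Gen) : ℤ := D.gr g + (g.1.card : ℤ) + o.nPos - 2 * o.nNeg

/-- Filtration level `p` (homological grading at least `p`) of the part of the chain group with
`q - 2 h = s`. All the maps `d^k`, of bidegree `(k, 2k - 2)`, lower `s` by `2`. -/
def Fil (p s : ℤ) : Submodule (ZMod 2) (Chain D) where
  carrier := {v | ∀ g, v g ≠ 0 → p ≤ o.hDeg g ∧ o.qDeg g - 2 * o.hDeg g = s}
  add_mem' := by
    intro v w hv hw g hg
    by_cases h : v g = 0
    · apply hw g
      intro h'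
      exact hg (by simp [h, h'])
    · exact hv g h
  zero_mem' := by
    intro g hg
    exact absurd rfl hg
  smul_mem' := by
    intro c v hv g hg
    apply hv g
    intro h
    exact hg (by simp [h])

end Orientation

/-- The reduced complex: span of the monomials divisible by `x(P)`, where `x(P)` is the circle
through the point `P` (a half-edge). -/
def Reduced (P : D.H) : Submodule (ZMod 2) (Chain D) where
  carrier := {v | ∀ g : D.Gen, v g ≠ 0 → D.circ g.1 P ∈ g.2}
  add_mem' := by
    intro v w hv hw g hg
    by_cases h : v g = 0
    · apply hw g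
      intro h'
      exact hg (by simp [h, h'])
    · exact hv g h
  zero_mem' := by
    intro g hg
    exact absurd rfl hg
  smul_mem' := by
    intro c v hv g hg
    apply hv g
    intro h
    exact hg (by simp [h])

section Pages

variable {V : Type} [AddCommGroup V] [Module (ZMod 2) V]

/-- `Z_r^p`: elements of filtration `p` whose differential has filtration `p + r`, in the part of
the complex with `q - 2 h = s` (the differential lowers `s` by `2`). -/
def ZZ (d : V →ₗ[ZMod 2] V) (F : ℤ → ℤ → Submodule (ZMod 2) V) (r p s : ℤ) :
    Submodule (ZMod 2) V :=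
  F p s ⊓ (F (p + r) (s - 2)).comap d

/-- `Z_{r-1}^{p+1} + d Z_{r-1}^{p-r+1}`. -/
def BB (d : V →ₗ[ZMod 2] V) (F : ℤ → ℤ → Submodule (ZMod 2) V) (r p s : ℤ) :
    Submodule (ZMod 2) V :=
  ZZ d F (r - 1) (p + 1) s ⊔ (ZZ d F (r - 1) (p - r + 1) (s + 2)).map d

/-- The page `E_r^p`, in the part with `q - 2 h = s`, of the spectral sequence of a filtered
complex. -/
abbrev Page (d : V →ₗ[ZMod 2] V) (F : ℤ → ℤ → Submodule (ZMod 2) V) (r p s : ℤ) : Type :=
  ↥(ZZ d F r p s) ⧸ (BB d F r p s).comap (ZZ d F r p s).subtype

end Pages

/-- The page `E^k` of Szabo's spectral sequence in bidegree `(h, q)`. -/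
abbrev E (o : Orientation D) (k h q : ℤ) : Type :=
  Page (diff cv D t) o.Fil k h (q - 2 * h)

/-- The page of the reduced spectral sequence in bidegree `(h, q)`: that of the subcomplex
`Reduced P`, with quantum grading raised by one. -/
abbrev ERed (o : Orientation D) (P : D.H) (k h q : ℤ) : Type :=
  Page (diff cv D t) (fun p s => o.Fil p s ⊓ Reduced D P) k h (q - 1 - 2 * h)

end

end Pool.Agent.helper35.SZ
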